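import Pool.Agent.Helper76.P13.StD
import Pool.Agent.Helper84.P13.D1

/-!
# Project P13 (levels `13^n`), module Sur: solving the inhomogeneous equation

Adapted from `Pool/Agent/Helper53/TK7/M_Sur.lean` and `Pool/Agent/Helper55/P11/M_Sur.lean`.
-/

set_option autoImplicit false

namespace Pool.Agent.Helper53.P13L

open Pool.Agent.Helper76.P13D Pool.Agent.Helper84.P13 Pool.Agent.Helper28.P13
open Pool.Agent.Helper10.P13 (pj S13Pj pj13)

private theorem decomp_Sur (hLow0 : S13Low0) (hBb : S13Bb) (r s : ℕ) (e : ℤ) (E : Fn13 (13 ^ r) (13 ^ s))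
    (he : e < 13 ^ r + 13 ^ s - 2) (hE : E ∈ Wd13 e) :
    ∃ U V : Fn13 (13 ^ r) (13 ^ s), U ∈ Wd13 (e + 1) ∧ V ∈ Wd13 (e + 1) ∧ dX U + dY V = E := by
  obtain ⟨_, _, _, _, hmono, _⟩ := hLow0 r s
  obtain ⟨h1, h2, h3, _, _, h6⟩ := hBb r s
  set c : ℕ → ℕ → ZMod 13 := fun i j =>
    ((dX ^ i * dY ^ j : Module.End (ZMod 13) (Fn13 (13 ^ r) (13 ^ s))) E) 0 0 with hc
  have hc0 : ∀ i j : ℕ, e < (i : ℤ) + j → c i j = 0 := by
    intro i j hij
    have : ((dX ^ i * dY ^ j : Module.End (ZMod 13) (Fn13 (13 ^ r) (13 ^ s))) E) = 0 := hE i j hij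
    rw [hc]
    simp only [this]
    rfl
  have hj : ∀ i j : ℕ, i < 13 ^ r → (i : ℤ) + j ≤ e → ¬ (i + 1 < 13 ^ r) → j + 1 < 13 ^ s := by
    intro i j hi hij hi1
    have h7 : i + 1 = 13 ^ r := by omega
    have h8 : (i : ℤ) + 1 = 13 ^ r := by exact_mod_cast h7
    have h9 : (j : ℤ) + 1 < 13 ^ s := by linarith
    exact_mod_cast h9
  refine ⟨∑ i ∈ Finset.range (13 ^ r), ∑ j ∈ Finset.range (13 ^ s),
      (if i + 1 < 13 ^ r then c i j • bb13 (i + 1) j else 0),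
    ∑ i ∈ Finset.range (13 ^ r), ∑ j ∈ Finset.range (13 ^ s),
      (if i + 1 < 13 ^ r then 0 else c i j • bb13 i (j + 1)), ?_, ?_, ?_⟩
  · refine Submodule.sum_mem _ fun i hi => Submodule.sum_mem _ fun j hj => ?_
    rw [Finset.mem_range] at hi hj
    split_ifs with h
    · by_cases hij : (i : ℤ) + j ≤ e
      · refine Submodule.smul_mem _ _ (hmono _ _ ?_ (h1 (i + 1) j h hj))
        push_cast
        linarith
      · rw [hc0 i j (not_le.1 hij), zero_smul]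
        exact Submodule.zero_mem _
    · exact Submodule.zero_mem _
  · refine Submodule.sum_mem _ fun i hi => Submodule.sum_mem _ fun j _ => ?_
    rw [Finset.mem_range] at hi
    split_ifs with h
    · exact Submodule.zero_mem _
    · by_cases hij : (i : ℤ) + j ≤ e
      · refine Submodule.smul_mem _ _ (hmono _ _ ?_ (h1 i (j + 1) hi (hj i j hi hij h)))
        push_cast
        linarith
      · rw [hc0 i j (not_le.1 hij), zero_smul]
        exact Submodule.zero_mem _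
  · refine Eq.trans ?_ (h6 E).symm
    rw [map_sum, map_sum, ← Finset.sum_add_distrib]
    refine Finset.sum_congr rfl fun i hi => ?_
    rw [map_sum, map_sum, ← Finset.sum_add_distrib]
    refine Finset.sum_congr rfl fun j hj' => ?_
    rw [Finset.mem_range] at hi hj'
    have hcc : ((dX ^ i * dY ^ j : Module.End (ZMod 13) (Fn13 (13 ^ r) (13 ^ s))) E) 0 0 = c i j := rfl
    rw [hcc]
    by_cases h : i + 1 < 13 ^ r
    · rw [if_pos h, if_pos h, map_smul, map_zero, add_zero, h2 i j h hj']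
    · rw [if_neg h, if_neg h, map_smul, map_zero, zero_add]
      by_cases hij : (i : ℤ) + j ≤ e
      · rw [h3 i j hi (hj i j hi hij h)]
      · rw [hc0 i j (not_le.1 hij), zero_smul, zero_smul]

/-- The equation with operators. -/
private theorem DfP_op (r s : ℕ) (u : Fin 5 → Fn13 (13 ^ r) (13 ^ s)) :
    (DfP u : Fn13 (13 ^ r) (13 ^ s)) = u 0 - op13 1 1 0 1 (u 0) - (u 1 - op13 4 (-1) 1 (-3) (u 1)) -
      (u 2 - op13 5 (-2) 1 (-5) (u 2)) - (u 3 - op13 8 (-5) 1 (-8) (u 3)) -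
      (u 4 - op13 10 (-7) 1 (-9) (u 4)) := rfl

/-- The algebra of one step. -/
private theorem alg_Sur {M : Type} [AddCommGroup M] [Module (ZMod 13) M] (W : Submodule (ZMod 13) M)
    (D XP Q X Y OQ OX OY : M)
    (h : D + -XP + ((4 : ZMod 13) • Q - ((4 : ZMod 13) • OQ + (10 : ZMod 13) • ((4 : ZMod 13) • OX) +
      (5 : ZMod 13) • ((4 : ZMod 13) • OY))) + ((9 : ZMod 13) • Q - ((9 : ZMod 13) • OQ +
      (9 : ZMod 13) • OX + (8 : ZMod 13) • ((9 : ZMod 13) • OY))) ∈ W)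
    (k1 : OQ - (-1 : ZMod 13) • Q ∈ W) (k2 : OX - (1 : ZMod 13) • X ∈ W)
    (k3 : OY - (1 : ZMod 13) • Y ∈ W) :
    D - (XP + Y) - (10 : ZMod 13) • X ∈ W := by
  have h6 : (14 - 1 : ZMod 13) = 0 := by decide
  have h8 : D - (XP + Y) - (10 : ZMod 13) • X = (D + -XP + ((4 : ZMod 13) • Q - ((4 : ZMod 13) • OQ +
      (10 : ZMod 13) • ((4 : ZMod 13) • OX) +
      (5 : ZMod 13) • ((4 : ZMod 13) • OY))) + ((9 : ZMod 13) • Q - ((9 : ZMod 13) • OQ +
      (9 : ZMod 13) • OX + (8 : ZMod 13) • ((9 : ZMod 13) • OY)))) +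
      (13 : ZMod 13) • (OQ - (-1 : ZMod 13) • Q) + (49 : ZMod 13) • (OX - (1 : ZMod 13) • X) +
      (92 : ZMod 13) • (OY - (1 : ZMod 13) • Y) +
      (14 - 1 : ZMod 13) • (-((2 : ZMod 13) • Q) + (3 : ZMod 13) • X + (7 : ZMod 13) • Y) := by
    module
  rw [h8, h6, zero_smul, add_zero]
  exact W.add_mem (W.add_mem (W.add_mem h (W.smul_mem _ k1)) (W.smul_mem _ k2)) (W.smul_mem _ k3)

/-- One step of the induction. -/
private theorem step_Sur (hSta : TSta) (hLwd : TLwd)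
    (r s : ℕ) (e : ℤ) (E : Fn13 (13 ^ r) (13 ^ s)) (he : e < 13 ^ r + 13 ^ s - 2) (hE : E ∈ Wd13 e) :
    ∃ u : Fin 5 → Fn13 (13 ^ r) (13 ^ s), (∀ f, u f ∈ Wd13 (e + 1)) ∧
      E - (DfP u : Fn13 (13 ^ r) (13 ^ s)) ∈
        (Wd13 (e - 1) : Submodule (ZMod 13) (Fn13 (13 ^ r) (13 ^ s))) := by
  obtain ⟨_, _, _, _, hmono, _, hdX, hdY, _⟩ := low0 r s
  obtain ⟨hp0, _, hp12, hpw, hpp, hpd, _⟩ := pj13 r s
  have hW := (nfa r s).1
  obtain ⟨P, Q, hP, hQ, hPQ⟩ := decomp_Sur low0 bb r s e E he hE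
  -- projections and `oW w` preserve degrees
  have hp : ∀ (c : ℕ) (d : ℤ) (F : Fn13 (13 ^ r) (13 ^ s)), F ∈ Wd13 d → pj c F ∈ Wd13 d := by
    intro c d F hF
    have := hp0 c d F hF
    rwa [sub_zero] at this
  have hw : ∀ (w : Fin 12) (d : ℤ) (F : Fn13 (13 ^ r) (13 ^ s)), F ∈ Wd13 d → oW w F ∈ Wd13 d := by
    intro w d F hF
    have := hW w d F hF
    rwa [sub_zero] at this
  have hx : ∀ F : Fn13 (13 ^ r) (13 ^ s), F ∈ Wd13 (e + 1) → dX F ∈ Wd13 e := by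
    intro F hF
    have := hdX _ F hF
    rwa [add_sub_cancel_right] at this
  have hy : ∀ F : Fn13 (13 ^ r) (13 ^ s), F ∈ Wd13 (e + 1) → dY F ∈ Wd13 e := by
    intro F hF
    have := hdY _ F hF
    rwa [add_sub_cancel_right] at this
  have h17 : (pj 17 : Module.End (ZMod 13) (Fn13 (13 ^ r) (13 ^ s))) = pj 5 := hp12 5
  have h15 : (pj 15 : Module.End (ZMod 13) (Fn13 (13 ^ r) (13 ^ s))) = pj 3 := hp12 3
  -- commutation of projections and differences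
  have hcx : ∀ (c : ℕ) (F : Fn13 (13 ^ r) (13 ^ s)), F ∈ Wd13 (e + 1) →
      pj c (dX F) - dX (pj (c + 1) F) ∈
        (Wd13 (e - 1) : Submodule (ZMod 13) (Fn13 (13 ^ r) (13 ^ s))) := by
    intro c F hF
    exact hmono _ _ (by linarith) ((hpd c).1 _ F hF)
  have hcy : ∀ (c : ℕ) (F : Fn13 (13 ^ r) (13 ^ s)), F ∈ Wd13 (e + 1) →
      pj c (dY F) - dY (pj (c + 11) F) ∈
        (Wd13 (e - 1) : Submodule (ZMod 13) (Fn13 (13 ^ r) (13 ^ s))) := by
    intro c F hF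
    exact hmono _ _ (by linarith) ((hpd c).2 _ F hF)
  -- orthogonality
  have hor : ∀ (c c' : ℕ) (d : ℤ) (F : Fn13 (13 ^ r) (13 ^ s)), c < 12 → c' < 12 → c ≠ c' → F ∈ Wd13 d →
      pj c (pj c' F) ∈ (Wd13 (d - 15) : Submodule (ZMod 13) (Fn13 (13 ^ r) (13 ^ s))) := by
    intro c c' d F hc hc' hne hF
    have h9 := hpp c c' hc hc' _ F hF
    rw [if_neg hne, sub_zero] at h9
    exact h9
  have hid : ∀ (c : ℕ) (d : ℤ) (F : Fn13 (13 ^ r) (13 ^ s)), c < 12 → F ∈ Wd13 d →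
      pj c (pj c F) - pj c F ∈ (Wd13 (d - 15) : Submodule (ZMod 13) (Fn13 (13 ^ r) (13 ^ s))) := by
    intro c d F hc hF
    have h9 := hpp c c hc hc _ F hF
    rw [if_pos rfl] at h9
    exact h9
  -- `oW w` on a class
  have hk : ∀ (w : Fin 12) (c : ℕ) (m : ZMod 13) (F F' : Fn13 (13 ^ r) (13 ^ s)),
      (((om12 w) ^ c : ℤ) : ZMod 13) = m → F ∈ Wd13 e →
      pj c F - F' ∈ (Wd13 (e - 1) : Submodule (ZMod 13) (Fn13 (13 ^ r) (13 ^ s))) →
      oW w F' - m • F' ∈ (Wd13 (e - 1) : Submodule (ZMod 13) (Fn13 (13 ^ r) (13 ^ s))) := by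
    intro w c m F F' hm hF h
    have h1 := hmono _ (e - 1) (by linarith) ((hpw c w).2 e F hF)
    rw [hm] at h1
    have h1' : oW w (pj c F) - m • pj c F ∈
        (Wd13 (e - 1) : Submodule (ZMod 13) (Fn13 (13 ^ r) (13 ^ s))) := h1
    have h2 := hw w _ _ h
    have h3 : oW w F' - m • F' = (oW w (pj c F) - m • pj c F) - oW w (pj c F - F') +
        m • (pj c F - F') := by
      rw [map_sub, smul_sub]
      abel
    rw [h3]
    exact Submodule.add_mem _ (Submodule.sub_mem _ h1' h2) (Submodule.smul_mem _ _ h)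
  -- the functions
  obtain ⟨P', hP'⟩ : ∃ P' : Fn13 (13 ^ r) (13 ^ s), P' = pj 1 P + pj 7 P := ⟨_, rfl⟩
  obtain ⟨Q', hQ'⟩ : ∃ Q' : Fn13 (13 ^ r) (13 ^ s), Q' = pj 11 Q + pj 5 Q := ⟨_, rfl⟩
  have hP'm : P' ∈ Wd13 (e + 1) := by
    rw [hP']; exact Submodule.add_mem _ (hp 1 _ _ hP) (hp 7 _ _ hP)
  have hQ'm : Q' ∈ Wd13 (e + 1) := by
    rw [hQ']; exact Submodule.add_mem _ (hp 11 _ _ hQ) (hp 5 _ _ hQ)
  have cX11 : pj 10 (dX Q) - dX (pj 11 Q) ∈
      (Wd13 (e - 1) : Submodule (ZMod 13) (Fn13 (13 ^ r) (13 ^ s))) := hcx 10 Q hQ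
  have cX5 : pj 4 (dX Q) - dX (pj 5 Q) ∈
      (Wd13 (e - 1) : Submodule (ZMod 13) (Fn13 (13 ^ r) (13 ^ s))) := hcx 4 Q hQ
  have cY11 : pj 0 (dY Q) - dY (pj 11 Q) ∈
      (Wd13 (e - 1) : Submodule (ZMod 13) (Fn13 (13 ^ r) (13 ^ s))) := hcy 0 Q hQ
  have cY5 : pj 6 (dY Q) - dY (pj 5 Q) ∈
      (Wd13 (e - 1) : Submodule (ZMod 13) (Fn13 (13 ^ r) (13 ^ s))) := by
    have h9 := hcy 6 Q hQ
    have h11 : (6 + 11 : ℕ) = 17 := rfl
    rw [h11, h17] at h9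
    exact h9
  have kQ0 : ∀ c : ℕ, (((om12 6) ^ c : ℤ) : ZMod 13) = -1 →
      oW 6 (pj c Q) - (-1 : ZMod 13) • pj c Q ∈
        (Wd13 (e - 1) : Submodule (ZMod 13) (Fn13 (13 ^ r) (13 ^ s))) := by
    intro c hm
    have h1 := hmono _ (e - 1) (by linarith) ((hpw c 6).2 (e + 1) Q hQ)
    rw [hm] at h1
    exact h1
  have kQ : oW 6 Q' - (-1 : ZMod 13) • Q' ∈
      (Wd13 (e - 1) : Submodule (ZMod 13) (Fn13 (13 ^ r) (13 ^ s))) := by
    have h1 := Submodule.add_mem _ (kQ0 11 (by decide)) (kQ0 5 (by decide))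
    have h2 : oW 6 Q' - (-1 : ZMod 13) • Q' = (oW 6 (pj 11 Q) - (-1 : ZMod 13) • pj 11 Q) +
        (oW 6 (pj 5 Q) - (-1 : ZMod 13) • pj 5 Q) := by
      rw [hQ', map_add (oW 6), smul_add]
      abel
    rw [h2]
    exact h1
  have kX : oW 6 (dX Q') - (1 : ZMod 13) • dX Q' ∈
      (Wd13 (e - 1) : Submodule (ZMod 13) (Fn13 (13 ^ r) (13 ^ s))) := by
    have h1 := Submodule.add_mem _ (hk 6 10 1 _ _ (by decide) (hx _ hQ) cX11)
      (hk 6 4 1 _ _ (by decide) (hx _ hQ) cX5)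
    have h2 : oW 6 (dX Q') - (1 : ZMod 13) • dX Q' =
        (oW 6 (dX (pj 11 Q)) - (1 : ZMod 13) • dX (pj 11 Q)) +
        (oW 6 (dX (pj 5 Q)) - (1 : ZMod 13) • dX (pj 5 Q)) := by
      rw [hQ', map_add dX, map_add (oW 6), smul_add]
      abel
    rw [h2]
    exact h1
  have kY : oW 6 (dY Q') - (1 : ZMod 13) • dY Q' ∈
      (Wd13 (e - 1) : Submodule (ZMod 13) (Fn13 (13 ^ r) (13 ^ s))) := by
    have h1 := Submodule.add_mem _ (hk 6 0 1 _ _ (by decide) (hy _ hQ) cY11)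
      (hk 6 6 1 _ _ (by decide) (hy _ hQ) cY5)
    have h2 : oW 6 (dY Q') - (1 : ZMod 13) • dY Q' =
        (oW 6 (dY (pj 11 Q)) - (1 : ZMod 13) • dY (pj 11 Q)) +
        (oW 6 (dY (pj 5 Q)) - (1 : ZMod 13) • dY (pj 5 Q)) := by
      rw [hQ', map_add dY, map_add (oW 6), smul_add]
      abel
    rw [h2]
    exact h1
  -- the equation
  obtain ⟨D, hD⟩ : ∃ D : Fn13 (13 ^ r) (13 ^ s),
      D = DfP ![-P', 0, (4 : ZMod 13) • Q', (9 : ZMod 13) • Q', 0] := ⟨_, rfl⟩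
  have g1 : D - (dX P' + dY Q') - (10 : ZMod 13) • dX Q' ∈
      (Wd13 (e - 1) : Submodule (ZMod 13) (Fn13 (13 ^ r) (13 ^ s))) := by
    have h9 := hLwd r s (e + 1) ![-P', 0, (4 : ZMod 13) • Q', (9 : ZMod 13) • Q', 0] (by
      intro f
      fin_cases f
      · exact Submodule.neg_mem _ hP'm
      · exact Submodule.zero_mem _
      · exact Submodule.smul_mem _ _ hQ'm
      · exact Submodule.smul_mem _ _ hQ'm
      · exact Submodule.zero_mem _)
    rw [← hD] at h9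
    have e0 : (![-P', 0, (4 : ZMod 13) • Q', (9 : ZMod 13) • Q', 0] : Fin 5 → Fn13 (13 ^ r) (13 ^ s)) 0 =
      -P' := rfl
    have e1 : (![-P', 0, (4 : ZMod 13) • Q', (9 : ZMod 13) • Q', 0] : Fin 5 → Fn13 (13 ^ r) (13 ^ s)) 1 =
      0 := rfl
    have e2 : (![-P', 0, (4 : ZMod 13) • Q', (9 : ZMod 13) • Q', 0] : Fin 5 → Fn13 (13 ^ r) (13 ^ s)) 2 =
      (4 : ZMod 13) • Q' := rfl
    have e3 : (![-P', 0, (4 : ZMod 13) • Q', (9 : ZMod 13) • Q', 0] : Fin 5 → Fn13 (13 ^ r) (13 ^ s)) 3 =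
      (9 : ZMod 13) • Q' := rfl
    have e4 : (![-P', 0, (4 : ZMod 13) • Q', (9 : ZMod 13) • Q', 0] : Fin 5 → Fn13 (13 ^ r) (13 ^ s)) 4 =
      0 := rfl
    rw [e0, e1, e2, e3, e4] at h9
    have h11 : e + 1 - 2 = e - 1 := by ring
    rw [h11] at h9
    simp only [map_zero, smul_zero, add_zero, sub_zero, map_add, map_smul, map_neg] at h9
    exact alg_Sur _ D (dX P') Q' (dX Q') (dY Q') _ _ _ h9 kQ kX kY
  -- the classes 0 and 6
  have g2 : pj 0 E + pj 6 E - (dX P' + dY Q') ∈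
      (Wd13 (e - 1) : Submodule (ZMod 13) (Fn13 (13 ^ r) (13 ^ s))) := by
    have h9 := hcx 0 P hP
    have h10 := hcx 6 P hP
    have h12 : pj 0 E + pj 6 E - (dX P' + dY Q') =
        (pj 0 (dX P) - dX (pj (0 + 1) P)) + (pj 6 (dX P) - dX (pj (6 + 1) P)) +
        ((pj 0 (dY Q) - dY (pj 11 Q)) + (pj 6 (dY Q) - dY (pj 5 Q))) := by
      rw [← hPQ, hP', hQ', map_add (pj 0), map_add (pj 6), map_add dX, map_add dY]
      abel
    rw [h12]
    exact Submodule.add_mem _ (Submodule.add_mem _ h9 h10) (Submodule.add_mem _ cY11 cY5)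
  -- the error
  obtain ⟨R, hRdef⟩ : ∃ R : Fn13 (13 ^ r) (13 ^ s), R = E - D := ⟨_, rfl⟩
  have hR : R - (E - pj 0 E - pj 6 E - (10 : ZMod 13) • dX Q') ∈
      (Wd13 (e - 1) : Submodule (ZMod 13) (Fn13 (13 ^ r) (13 ^ s))) := by
    have h1 : R - (E - pj 0 E - pj 6 E - (10 : ZMod 13) • dX Q') =
        (pj 0 E + pj 6 E - (dX P' + dY Q')) - (D - (dX P' + dY Q') - (10 : ZMod 13) • dX Q') := by
      rw [hRdef]
      abel
    rw [h1]
    exact Submodule.sub_mem _ g2 g1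
  have hcl : ∀ c : ℕ, (c = 0 ∨ c = 6) → pj c (dX Q') ∈
      (Wd13 (e - 1) : Submodule (ZMod 13) (Fn13 (13 ^ r) (13 ^ s))) := by
    intro c hc
    have h10 := hcx c Q' hQ'm
    have h11 : pj (c + 1) Q' ∈ (Wd13 (e - 1) : Submodule (ZMod 13) (Fn13 (13 ^ r) (13 ^ s))) := by
      rw [hQ', map_add (pj (c + 1))]
      rcases hc with rfl | rfl
      · exact Submodule.add_mem _
          (hmono _ _ (by linarith) (hor 1 11 _ _ (by norm_num) (by norm_num) (by norm_num) hQ))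
          (hmono _ _ (by linarith) (hor 1 5 _ _ (by norm_num) (by norm_num) (by norm_num) hQ))
      · exact Submodule.add_mem _
          (hmono _ _ (by linarith) (hor 7 11 _ _ (by norm_num) (by norm_num) (by norm_num) hQ))
          (hmono _ _ (by linarith) (hor 7 5 _ _ (by norm_num) (by norm_num) (by norm_num) hQ))
    have h12 : dX (pj (c + 1) Q') ∈
        (Wd13 (e - 1) : Submodule (ZMod 13) (Fn13 (13 ^ r) (13 ^ s))) :=
      hmono _ _ (by linarith) (hdX _ _ h11)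
    have h13 : pj c (dX Q') = (pj c (dX Q') - dX (pj (c + 1) Q')) + dX (pj (c + 1) Q') := by abel
    rw [h13]
    exact Submodule.add_mem _ h10 h12
  have hRe : R = (R - (E - pj 0 E - pj 6 E - (10 : ZMod 13) • dX Q')) +
      (E - pj 0 E - pj 6 E - (10 : ZMod 13) • dX Q') := by abel
  have hR0 : pj 0 R ∈ (Wd13 (e - 1) : Submodule (ZMod 13) (Fn13 (13 ^ r) (13 ^ s))) := by
    rw [hRe, map_add (pj 0), map_sub (pj 0) (E - pj 0 E - pj 6 E), map_sub (pj 0) (E - pj 0 E),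
      map_sub (pj 0) E, map_smul]
    have h9 := hmono _ (e - 1) (by linarith) (hid 0 e E (by norm_num) hE)
    have h10 := hmono _ (e - 1) (by linarith)
      (hor 0 6 e E (by norm_num) (by norm_num) (by norm_num) hE)
    have h11 := hcl 0 (Or.inl rfl)
    refine Submodule.add_mem _ (hp 0 _ _ hR) (Submodule.sub_mem _ (Submodule.sub_mem _ ?_ h10)
      (Submodule.smul_mem _ _ h11))
    have h12 : pj 0 E - pj 0 (pj 0 E) = -(pj 0 (pj 0 E) - pj 0 E) := by abel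
    rw [h12]
    exact Submodule.neg_mem _ h9
  have hR6 : pj 6 R ∈ (Wd13 (e - 1) : Submodule (ZMod 13) (Fn13 (13 ^ r) (13 ^ s))) := by
    rw [hRe, map_add (pj 6), map_sub (pj 6) (E - pj 0 E - pj 6 E), map_sub (pj 6) (E - pj 0 E),
      map_sub (pj 6) E, map_smul]
    have h9 := hmono _ (e - 1) (by linarith) (hid 6 e E (by norm_num) hE)
    have h10 := hmono _ (e - 1) (by linarith)
      (hor 6 0 e E (by norm_num) (by norm_num) (by norm_num) hE)
    have h11 := hcl 6 (Or.inr rfl)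
    refine Submodule.add_mem _ (hp 6 _ _ hR) (Submodule.sub_mem _ ?_ (Submodule.smul_mem _ _ h11))
    have h12 : pj 6 E - pj 6 (pj 0 E) - pj 6 (pj 6 E) =
        -(pj 6 (pj 6 E) - pj 6 E) - pj 6 (pj 0 E) := by abel
    rw [h12]
    exact Submodule.sub_mem _ (Submodule.neg_mem _ h9) h10
  have hRm : R ∈ (Wd13 e : Submodule (ZMod 13) (Fn13 (13 ^ r) (13 ^ s))) := by
    rw [hRe]
    refine Submodule.add_mem _ (hmono _ _ (by linarith) hR) (Submodule.sub_mem _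
      (Submodule.sub_mem _ (Submodule.sub_mem _ hE (hp 0 _ _ hE)) (hp 6 _ _ hE))
      (Submodule.smul_mem _ _ (hx _ hQ'm)))
  obtain ⟨a', b', ha', hb', hab⟩ := hSta r s e R hRm hR0 hR6
  refine ⟨![-P', -a', (4 : ZMod 13) • Q' - b', (9 : ZMod 13) • Q', 0], ?_, ?_⟩
  · intro f
    fin_cases f
    · exact Submodule.neg_mem _ hP'm
    · exact Submodule.neg_mem _ (hmono _ _ (by linarith) ha')
    · exact Submodule.sub_mem _ (Submodule.smul_mem _ _ hQ'm) (hmono _ _ (by linarith) hb')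
    · exact Submodule.smul_mem _ _ hQ'm
    · exact Submodule.zero_mem _
  · have h14 : E - (DfP ![-P', -a', (4 : ZMod 13) • Q' - b', (9 : ZMod 13) • Q', 0] :
        Fn13 (13 ^ r) (13 ^ s)) = R - (a' - op13 4 (-1) 1 (-3) a') - (b' - op13 5 (-2) 1 (-5) b') := by
      have h15 : (DfP ![-P', -a', (4 : ZMod 13) • Q' - b', (9 : ZMod 13) • Q', 0] :
          Fn13 (13 ^ r) (13 ^ s)) = DfP ![-P', 0, (4 : ZMod 13) • Q', (9 : ZMod 13) • Q', 0] +
            (a' - op13 4 (-1) 1 (-3) a') + (b' - op13 5 (-2) 1 (-5) b') := by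
        rw [DfP_op, DfP_op]
        have e1 : (![-P', 0, (4 : ZMod 13) • Q', (9 : ZMod 13) • Q', 0] :
          Fin 5 → Fn13 (13 ^ r) (13 ^ s)) 1 = 0 := rfl
        have e1' : (![-P', -a', (4 : ZMod 13) • Q' - b', (9 : ZMod 13) • Q', 0] :
          Fin 5 → Fn13 (13 ^ r) (13 ^ s)) 1 = -a' := rfl
        have e0 : (![-P', -a', (4 : ZMod 13) • Q' - b', (9 : ZMod 13) • Q', 0] :
          Fin 5 → Fn13 (13 ^ r) (13 ^ s)) 0 = (![-P', 0, (4 : ZMod 13) • Q', (9 : ZMod 13) • Q', 0] :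
          Fin 5 → Fn13 (13 ^ r) (13 ^ s)) 0 := rfl
        have e2 : (![-P', 0, (4 : ZMod 13) • Q', (9 : ZMod 13) • Q', 0] :
          Fin 5 → Fn13 (13 ^ r) (13 ^ s)) 2 = (4 : ZMod 13) • Q' := rfl
        have e2' : (![-P', -a', (4 : ZMod 13) • Q' - b', (9 : ZMod 13) • Q', 0] :
          Fin 5 → Fn13 (13 ^ r) (13 ^ s)) 2 = (4 : ZMod 13) • Q' - b' := rfl
        have e3 : (![-P', -a', (4 : ZMod 13) • Q' - b', (9 : ZMod 13) • Q', 0] :
          Fin 5 → Fn13 (13 ^ r) (13 ^ s)) 3 = (![-P', 0, (4 : ZMod 13) • Q', (9 : ZMod 13) • Q', 0] :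
          Fin 5 → Fn13 (13 ^ r) (13 ^ s)) 3 := rfl
        have e4 : (![-P', -a', (4 : ZMod 13) • Q' - b', (9 : ZMod 13) • Q', 0] :
          Fin 5 → Fn13 (13 ^ r) (13 ^ s)) 4 = (![-P', 0, (4 : ZMod 13) • Q', (9 : ZMod 13) • Q', 0] :
          Fin 5 → Fn13 (13 ^ r) (13 ^ s)) 4 := rfl
        rw [e0, e3, e4, e1', e1, e2', e2, map_neg (op13 4 (-1) 1 (-3)), map_zero (op13 4 (-1) 1 (-3)),
          map_sub (op13 5 (-2) 1 (-5))]
        abel
      rw [h15, ← hD, hRdef]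
      abel
    rw [h14]
    exact hab

private theorem main_Sur (hSta : TSta) (hLwd : TLwd) (r s : ℕ) :
    ∀ (n : ℕ) (e : ℤ) (E : Fn13 (13 ^ r) (13 ^ s)), e < n → e < 13 ^ r + 13 ^ s - 2 → E ∈ Wd13 e →
    ∃ u : Fin 5 → Fn13 (13 ^ r) (13 ^ s), (∀ f, u f ∈ Wd13 (e + 1)) ∧
      (DfP u : Fn13 (13 ^ r) (13 ^ s)) = E := by
  have hL := low0 r s
  obtain ⟨_, _, _, _, hmono, _, _, _, _, _, _, _, _, hneg⟩ := hL
  intro n
  induction n with
  | zero =>
    intro e E he _ hE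
    have h1 : E = 0 := hneg E (hmono e (-1) (by
      have : e < 0 := by exact_mod_cast he
      omega) hE)
    refine ⟨fun _ => 0, fun _ => Submodule.zero_mem _, ?_⟩
    rw [DfP_op, h1, map_zero, map_zero, map_zero, map_zero, map_zero]
    simp
  | succ n ih =>
    intro e E he he2 hE
    obtain ⟨F, hF, hR⟩ := step_Sur hSta hLwd r s e E he2 hE
    obtain ⟨F', hF', hR'⟩ := ih (e - 1) _ (by push_cast at he; linarith)
      (by linarith) hR
    have h6 : e - 1 + 1 = e := by ring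
    rw [h6] at hF'
    refine ⟨fun f => F f + F' f, fun f => Submodule.add_mem _ (hF f)
      (hmono _ _ (by linarith) (hF' f)), ?_⟩
    have h7 : (DfP (fun f => F f + F' f) : Fn13 (13 ^ r) (13 ^ s)) =
        (DfP F : Fn13 (13 ^ r) (13 ^ s)) + (DfP F' : Fn13 (13 ^ r) (13 ^ s)) := by
      rw [DfP_op, DfP_op, DfP_op, map_add, map_add, map_add, map_add, map_add]
      abel
    rw [h7, hR']
    abel

theorem hSur (hs : TSta) (hw : TLwd) : TSur := by
  intro r s e E he hE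
  exact main_Sur hs hw r s (e + 1).toNat e E (by
    have := Int.self_le_toNat (e + 1)
    linarith) he hE

end Pool.Agent.Helper53.P13L
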